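import Pool.Agent.Lib.MP_8317a8_co.FM.Main

/-!
# MP_8317a8: Kalai's inequality for Fon-Der-Flaass 3-graphs of orientations of complete
multipartite graphs with at most four classes

Kalai's rank inequality holds, for all `s ≤ n / 3`, for every 3-graph on `[n]` which contains the
Fon-Der-Flaass 3-graph of an orientation, without induced directed 4-cycles, of a complete
multipartite graph with at most four classes.
-/

set_option autoImplicit false

namespace Pool.Agent.Results.MP_8317a8_co.FourClassFDF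

open KalaiRank

theorem result (n s : ℕ) (_hs : 1 ≤ s) (hn : s ≤ n / 3)
    -- the four classes (possibly empty) and the orientation of the pairs from different classes
    (c : Fin n → Fin 4) (r : Fin n → Fin n → Prop)
    (hr : ∀ a b, r a b → c a ≠ c b)
    (hor : ∀ a b, c a ≠ c b → (r a b ∧ ¬ r b a) ∨ (r b a ∧ ¬ r a b))
    (hC4 : ∀ a b a' b', c a = c a' → c b = c b' → ¬ (r a b ∧ r b a' ∧ r a' b' ∧ r b' a))
    -- the 3-graph
    (G : Finset (Finset (Fin n))) (_h3 : ∀ e ∈ G, e.card = 3)
    (hcl : ∀ a b d, a ≠ b → a ≠ d → b ≠ d → c a = c b → c a = c d → {a, b, d} ∈ G)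
    (hdom : ∀ a b d, b ≠ d → r a b → r a d → {a, b, d} ∈ G) :
    (∀ S : Finset (Fin n), S.card = 4 → ∃ e ∈ G, e ⊆ S) ∧
    (∑ i ∈ Finset.Icc 1 s, (((n - 2 * i).choose 2 : ℤ) - (i.choose 2 : ℤ))) ≤
    (((Matrix.of (fun (e : {e : Finset (Fin n) // e ∈ G})
        (c : Fin s × {p : Fin n × Fin n // p.1 < p.2}) =>
      if c.2.1.1 ∈ e.1 ∧ c.2.1.2 ∈ e.1 then
        ∑ w ∈ e.1 \ {c.2.1.1, c.2.1.2},
          (if c.2.1.1 < w ∧ w < c.2.1.2 then
            algebraMap (MvPolynomial (Fin s × Fin n) ℚ)
              (FractionRing (MvPolynomial (Fin s × Fin n) ℚ))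
              (MvPolynomial.X (c.1, w))
          else
            -algebraMap (MvPolynomial (Fin s × Fin n) ℚ)
              (FractionRing (MvPolynomial (Fin s × Fin n) ℚ))
              (MvPolynomial.X (c.1, w)))
      else (0 : FractionRing (MvPolynomial (Fin s × Fin n) ℚ))) :
        Matrix {e : Finset (Fin n) // e ∈ G}
          (Fin s × {p : Fin n × Fin n // p.1 < p.2})
          (FractionRing (MvPolynomial (Fin s × Fin n) ℚ))).rank : ℕ) : ℤ) := by
  have h : Ori c r :=
    { tot := fun a b hab => (hor a b hab).imp And.left And.left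
      asym := fun a b hab hba => by
        rcases hor a b (hr a b hab) with h1 | h1
        · exact h1.2 hba
        · exact h1.2 hab
      ne := hr
      c4 := fun a a' b b' h1 h2 h3 h4 h5 h6 => hC4 a b a' b' h1 h2 ⟨h3, h4, h5, h6⟩ }
  have hG : HasFDF G c r := ⟨hcl, hdom⟩
  refine ⟨fun S hS => FM.covers4 h hG S hS, ?_⟩
  change _ ≤ (((kmat n s G).rank : ℕ) : ℤ)
  exact FM.rank_bound4 (by omega) h hG

end Pool.Agent.Results.MP_8317a8_co.FourClassFDF
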