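import Pool.Agent.Lib.MP_8317a8_co.PL.Final
import Pool.Agent.Lib.MP_8317a8_co.PL.GenX

set_option autoImplicit false

namespace Pool.Agent.Results.MP_8317a8_co.PolyError

open Module KalaiRank

theorem term_bound (n i : ℕ) :
    ((n - 2 * i).choose 2 : ℤ) - (i.choose 2 : ℤ) ≤
      (n.choose 2 : ℤ) - 2 * i * n + i * (2 * i + 1) := by
  have h2 : ∀ m : ℕ, 2 * (m.choose 2 : ℤ) = (m : ℤ) * (m - 1) := by
    intro m
    have h := Nat.choose_two_right m
    obtain ⟨k, hk⟩ := (Nat.even_mul_pred_self m).two_dvd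
    rw [hk] at h
    have h3 : m.choose 2 = k := by omega
    have h4 : (2 : ℤ) * (k : ℤ) = (m : ℤ) * (m - 1) := by
      cases m with
      | zero =>
        simp at hk
        simp [hk]
      | succ m =>
        rw [Nat.add_sub_cancel] at hk
        push_cast
        have : ((m + 1) * m : ℕ) = (2 * k : ℕ) := hk
        have h5 : (((m + 1) * m : ℕ) : ℤ) = ((2 * k : ℕ) : ℤ) := by rw [this]
        push_cast at h5
        linarith
    rw [h3]
    exact h4
  have hn := h2 n
  have hm := h2 (n - 2 * i)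
  have hi : (0 : ℤ) ≤ (i.choose 2 : ℤ) := Int.natCast_nonneg _
  rcases le_or_gt (2 * i) n with h | h
  · rw [Nat.cast_sub h] at hm
    push_cast at hm
    nlinarith
  · have h0 : n - 2 * i = 0 := by omega
    rw [h0]
    have h1 : (0 : ℤ) ≤ ((n : ℤ) - 2 * i) * ((n : ℤ) - 2 * i - 1) := by
      have : (n : ℤ) - 2 * i ≤ -1 := by
        have : (n : ℤ) < 2 * i := by exact_mod_cast h
        linarith
      nlinarith
    have h3 : ((0 : ℕ).choose 2 : ℤ) = 0 := by simp
    rw [h3]
    nlinarith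

theorem sum_bound (n s : ℕ) :
    (∑ i ∈ Finset.Icc 1 s, (((n - 2 * i).choose 2 : ℤ) - (i.choose 2 : ℤ))) ≤
      s * (n.choose 2 : ℤ) - s * (s + 1) * n + 3 * s ^ 3 := by
  induction s with
  | zero => simp
  | succ s ih =>
    rw [Finset.sum_Icc_succ_top (by omega)]
    have h := term_bound n (s + 1)
    push_cast at h ih ⊢
    nlinarith [sq_nonneg (s : ℤ)]

/-- Kalai's rank conjecture holds up to an additive error which is polynomial in `s` and does not
depend on `n`: for all `s`, all `n` and all 3-graphs `G` on `[n]` in which every 4-set contains an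
edge, the rank of the generic matrix `M_s(G)` is at least `B_s(n) - 2^93 s^38`. -/
theorem result (n s : ℕ) (hs : 1 ≤ s) (G : Finset (Finset (Fin n))) (h3 : ∀ e ∈ G, e.card = 3)
    (h4 : ∀ S : Finset (Fin n), S.card = 4 → ∃ e ∈ G, e ⊆ S) :
    (∑ i ∈ Finset.Icc 1 s, (((n - 2 * i).choose 2 : ℤ) - (i.choose 2 : ℤ))) - 2 ^ 93 * s ^ 38 ≤
    (((Matrix.of (fun (e : {e : Finset (Fin n) // e ∈ G})
        (c : Fin s × {p : Fin n × Fin n // p.1 < p.2}) =>
      if c.2.1.1 ∈ e.1 ∧ c.2.1.2 ∈ e.1 then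
        ∑ w ∈ e.1 \ {c.2.1.1, c.2.1.2},
          (if c.2.1.1 < w ∧ w < c.2.1.2 then
            algebraMap (MvPolynomial (Fin s × Fin n) ℚ)
              (FractionRing (MvPolynomial (Fin s × Fin n) ℚ))
              (MvPolynomial.X (c.1, w))
          else
            -algebraMap (MvPolynomial (Fin s × Fin n) ℚ)
              (FractionRing (MvPolynomial (Fin s × Fin n) ℚ))
              (MvPolynomial.X (c.1, w)))
      else (0 : FractionRing (MvPolynomial (Fin s × Fin n) ℚ))) :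
        Matrix {e : Finset (Fin n) // e ∈ G}
          (Fin s × {p : Fin n × Fin n // p.1 < p.2})
          (FractionRing (MvPolynomial (Fin s × Fin n) ℚ))).rank : ℕ) : ℤ) := by
  change _ ≤ (((kmat n s G).rank : ℕ) : ℤ)
  have hG := covers_of G h3 h4
  have h1 := YSp_poly (genPos_generic n s) (generic_gx n s) hs hG Finset.univ
  have h2 := rank_kmat n s G
  have h5 := sum_bound n s
  rw [Finset.card_univ, Fintype.card_fin] at h1
  have h6 : (finrank (KK n s) (YSp G (gx n s) Finset.univ) : ℤ) ≤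
      s * (s + 1) * n + 7 * s ^ 2 * (2 ^ 90 * s ^ 36) := by
    exact_mod_cast h1
  have h7 : (s : ℤ) * (n.choose 2 : ℤ) ≤ ((kmat n s G).rank : ℤ) +
      (finrank (KK n s) (YSp G (gx n s) Finset.univ) : ℤ) := by
    exact_mod_cast h2
  have h8 : (3 : ℤ) * s ^ 3 ≤ 2 ^ 90 * s ^ 38 := by
    have h9 : (1 : ℤ) ≤ s := by exact_mod_cast hs
    have h10 : (s : ℤ) ^ 3 ≤ s ^ 38 := pow_le_pow_right₀ h9 (by norm_num)
    have h11 : (0 : ℤ) ≤ s ^ 3 := by positivity
    linarith
  have h9 : (7 : ℤ) * s ^ 2 * (2 ^ 90 * s ^ 36) = 7 * 2 ^ 90 * s ^ 38 := by ring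
  have h10 : (2 : ℤ) ^ 93 * s ^ 38 = 7 * 2 ^ 90 * s ^ 38 + 2 ^ 90 * s ^ 38 := by ring
  linarith

end Pool.Agent.Results.MP_8317a8_co.PolyError
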