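import Pool.Agent.Lib.MP_8317a8_co.RankMat
import Pool.Agent.Lib.MP_8317a8_co.SevenB

set_option autoImplicit false

namespace Pool.Agent.Results.MP_8317a8_co.SEqualTwo

open Module KalaiRank

theorem two_choose (m : ℕ) : 2 * (m.choose 2 : ℤ) = (m : ℤ) * (m - 1) := by
  have h := Nat.choose_two_right m
  obtain ⟨k, hk⟩ := (Nat.even_mul_pred_self m).two_dvd
  rw [hk] at h
  have h3 : m.choose 2 = k := by omega
  rw [h3]
  cases m with
  | zero =>
    simp at hk
    simp [hk]
  | succ m =>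
    rw [Nat.add_sub_cancel] at hk
    have h5 : (((m + 1) * m : ℕ) : ℤ) = ((2 * k : ℕ) : ℤ) := by rw [hk]
    push_cast at h5 ⊢
    linarith

/-- Kalai's rank conjecture for `s = 2`: for all `n ≥ 6` and every 3-graph `G` on `[n]` in which
every 4-set contains an edge, the rank of `M_2(G)` is at least `B_2(n)`. -/
theorem result (n : ℕ) (hn : 2 ≤ n / 3) :
    ∀ G : Finset (Finset (Fin n)), (∀ e ∈ G, e.card = 3) →
    (∀ S : Finset (Fin n), S.card = 4 → ∃ e ∈ G, e ⊆ S) →
    (∑ i ∈ Finset.Icc 1 2, (((n - 2 * i).choose 2 : ℤ) - (i.choose 2 : ℤ))) ≤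
    (((Matrix.of (fun (e : {e : Finset (Fin n) // e ∈ G})
        (c : Fin 2 × {p : Fin n × Fin n // p.1 < p.2}) =>
      if c.2.1.1 ∈ e.1 ∧ c.2.1.2 ∈ e.1 then
        ∑ w ∈ e.1 \ {c.2.1.1, c.2.1.2},
          (if c.2.1.1 < w ∧ w < c.2.1.2 then
            algebraMap (MvPolynomial (Fin 2 × Fin n) ℚ)
              (FractionRing (MvPolynomial (Fin 2 × Fin n) ℚ))
              (MvPolynomial.X (c.1, w))
          else
            -algebraMap (MvPolynomial (Fin 2 × Fin n) ℚ)
              (FractionRing (MvPolynomial (Fin 2 × Fin n) ℚ))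
              (MvPolynomial.X (c.1, w)))
      else (0 : FractionRing (MvPolynomial (Fin 2 × Fin n) ℚ))) :
        Matrix {e : Finset (Fin n) // e ∈ G}
          (Fin 2 × {p : Fin n × Fin n // p.1 < p.2})
          (FractionRing (MvPolynomial (Fin 2 × Fin n) ℚ))).rank : ℕ) : ℤ) := by
  intro G h3 h4
  change _ ≤ (((kmat n 2 G).rank : ℕ) : ℤ)
  have hn6 : 6 ≤ n := by omega
  have hG := covers_of G h3 h4
  have h1 := YSp_two h3 hG (genPos_generic n 2) Finset.univ (by
    rw [Finset.card_univ, Fintype.card_fin]; exact hn6)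
  have h2 := rank_kmat n 2 G
  rw [Finset.card_univ, Fintype.card_fin] at h1
  have h6 : (finrank (KK n 2) (YSp G (gx n 2) Finset.univ) : ℤ) + 12 ≤ 6 * n := by
    exact_mod_cast h1
  have h7 : (2 : ℤ) * (n.choose 2 : ℤ) ≤ ((kmat n 2 G).rank : ℤ) +
      (finrank (KK n 2) (YSp G (gx n 2) Finset.univ) : ℤ) := by
    exact_mod_cast h2
  have hs : (∑ i ∈ Finset.Icc 1 2, (((n - 2 * i).choose 2 : ℤ) - (i.choose 2 : ℤ))) =
      2 * (n.choose 2 : ℤ) - 6 * n + 12 := by
    have e1 : Finset.Icc 1 2 = {1, 2} := by decide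
    rw [e1, Finset.sum_pair (by norm_num)]
    have c1 := two_choose (n - 2 * 1)
    have c2 := two_choose (n - 2 * 2)
    have c3 := two_choose n
    rw [Nat.cast_sub (by omega)] at c1 c2
    push_cast at c1 c2
    have d1 : ((1 : ℕ).choose 2 : ℤ) = 0 := by decide
    have d2 : ((2 : ℕ).choose 2 : ℤ) = 1 := by decide
    rw [d1, d2]
    nlinarith
  rw [hs]
  linarith

end Pool.Agent.Results.MP_8317a8_co.SEqualTwo
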