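import Pool.Agent.Lib.MP_8317a8_co.RankMat
import Pool.Agent.Lib.MP_8317a8_co.Uniform

set_option autoImplicit false

namespace Pool.Agent.Results.MP_8317a8_co.UniformInS

open Module KalaiRank

/-- A bound for Kalai's rank conjecture which is uniform in `s`: for all `s ≥ 1`, all `n` and all
3-graphs `G` on `[n]` in which every 4-set contains an edge, the rank of the generic matrix `M_s(G)`
is at least `s * C(n,2) - 7 * s^2 * n`. -/
theorem result (n s : ℕ) (hs : 1 ≤ s) (G : Finset (Finset (Fin n))) (h3 : ∀ e ∈ G, e.card = 3)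
    (h4 : ∀ S : Finset (Fin n), S.card = 4 → ∃ e ∈ G, e ⊆ S) :
    (s : ℤ) * (n.choose 2 : ℤ) - 7 * (s : ℤ) ^ 2 * (n : ℤ) ≤
    (((Matrix.of (fun (e : {e : Finset (Fin n) // e ∈ G})
        (c : Fin s × {p : Fin n × Fin n // p.1 < p.2}) =>
      if c.2.1.1 ∈ e.1 ∧ c.2.1.2 ∈ e.1 then
        ∑ w ∈ e.1 \ {c.2.1.1, c.2.1.2},
          (if c.2.1.1 < w ∧ w < c.2.1.2 then
            algebraMap (MvPolynomial (Fin s × Fin n) ℚ)
              (FractionRing (MvPolynomial (Fin s × Fin n) ℚ))
              (MvPolynomial.X (c.1, w))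
          else
            -algebraMap (MvPolynomial (Fin s × Fin n) ℚ)
              (FractionRing (MvPolynomial (Fin s × Fin n) ℚ))
              (MvPolynomial.X (c.1, w)))
      else (0 : FractionRing (MvPolynomial (Fin s × Fin n) ℚ))) :
        Matrix {e : Finset (Fin n) // e ∈ G}
          (Fin s × {p : Fin n × Fin n // p.1 < p.2})
          (FractionRing (MvPolynomial (Fin s × Fin n) ℚ))).rank : ℕ) : ℤ) := by
  change _ ≤ (((kmat n s G).rank : ℕ) : ℤ)
  have hG := covers_of G h3 h4
  have h1 := YSp_uniform (K := KK n s) (x := gx n s) (genPos_generic n s) hs hG Finset.univ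
  have h2 := rank_kmat n s G
  rw [Finset.card_univ, Fintype.card_fin] at h1
  have h6 : (finrank (KK n s) (YSp G (gx n s) Finset.univ) : ℤ) ≤ 7 * (s : ℤ) ^ 2 * n := by
    exact_mod_cast h1
  have h7 : (s : ℤ) * (n.choose 2 : ℤ) ≤ ((kmat n s G).rank : ℤ) +
      (finrank (KK n s) (YSp G (gx n s) Finset.univ) : ℤ) := by
    exact_mod_cast h2
  linarith

end Pool.Agent.Results.MP_8317a8_co.UniformInS
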